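import Pool.Agent.T2H56.IC.PCG
import Pool.Agent.T2H56.IC.PTR
import Pool.Agent.T2H56.IC.PXK
import Pool.Agent.T2H56.IC.PXB
import Pool.Agent.T2H56.IC.PXQ
import Pool.Agent.T2H56.IC.PBC
import Pool.Agent.T2H56.IC.PBN
import Pool.Agent.T2H56.IC.PBI
import Pool.Agent.T2H56.IC.PBX
import Pool.Agent.T2H56.IC.PBL
import Pool.Agent.T2H56.IC.PQE
import Pool.Agent.T2H56.IC.PQL
import Pool.Agent.T2H56.IC.PQC
import Pool.Agent.T2H56.IC.PQT
import Pool.Agent.T2H56.IC.PQ37
import Pool.Agent.T2H56.IC.PQ411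
import Pool.Agent.T2H56.IC.PKT
import Pool.Agent.T2H56.IC.PKS
import Pool.Agent.T2H56.IC.PKE
import Pool.Agent.T2H56.IC.PKR
import Pool.Agent.T2H56.IC.PKM
import Pool.Agent.T2H56.IC.PKC
import Pool.Agent.T2H56.IC.PKL
import Pool.Agent.T2H56.IC.PKU
import Pool.Agent.T2H56.IC.PKN
import Pool.Agent.T2H56.IC.PKP
import Pool.Agent.T2H56.IC.PKG
import Pool.Agent.T2H56.IC.PK3
import Pool.Agent.T2H56.IC.PKF
import Pool.Agent.T2H56.IC.PF1
import Pool.Agent.T2H56.IC.PF2
import Pool.Agent.T2H56.IC.PF3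
import Pool.Agent.T2H56.IC.PCE
import Pool.Agent.T2H56.IC.PCD
import Pool.Agent.T2H56.IC.PCH
import Pool.Agent.T2H56.IC.PCN
import Pool.Agent.T2H56.IC.PC8
import Pool.Agent.T2H56.IC.PAB
import Pool.Agent.T2H56.IC.PAQ
import Pool.Agent.T2H56.IC.PAU
import Pool.Agent.T2H56.IC.PAK

set_option autoImplicit false

/-!
MP_2596c2_co: the feasible sets of interval cyclic edge colourings of the complete graphs `K_{2n}`,
the complete bipartite graphs `K_{m,n}` and the hypercubes `Q_n` are gap-free. Full positive answer.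

Outline. `K_{m,n}`: a certificate (the doubly centred winding pattern) shows `t ≤ m+n` for every
feasible `t`, and all `max(m,n) ≤ t ≤ m+n-1` are feasible. `Q_n`: for `t > 4(n-1)` the colouring lifts
to an integer colouring, which can be read modulo all smaller numbers; the other `t` are covered by
the known colouring with `n(n+1)/2` colours and two explicit colourings. `K_N`, `N = 2n`: the
certificate gives `t ≤ 2N-3`, with equality only if `3 ∣ N` (analysis of the equality case), and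
three-part constructions give all `N ≤ t ≤ 2N-5`, resp. all `N ≤ t ≤ 2N-3` if `3 ∣ N`.
-/

namespace Pool.Agent.Results.MP_2596c2_co.GapFree

open Pool.Agent.T2H56.IC

/-- **The feasible sets of `K_{2n}`, `K_{m,n}` and `Q_n` are gap-free.** -/
theorem result : ∀ m n : ℕ, 1 ≤ m → 1 ≤ n →
    (Pool.Agent.T2H56.IC.GapFree (FS (⊤ : SimpleGraph (Fin (2 * n)))) ∧
      Pool.Agent.T2H56.IC.GapFree (FS (completeBipartiteGraph (Fin m) (Fin n))) ∧
      Pool.Agent.T2H56.IC.GapFree (FS (Q n))) := by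
  intro m n hm hn
  refine ⟨?_, ?_, ?_⟩
  · exact pAK pCG pTR pF1 pF2 pF3 pCE pCD pCH pCN pC8
      (pAU pXK pKT pKS pKE pKR pKM pKC pKL pKU pKN pKP pKG pK3 pKF) n hn
  · exact pAB pCG pXB pBC pBN pBI pBX pBL m n hm hn
  · exact pAQ pCG pXQ pQE pQL pQC pQT pQ37 pQ411 n hn

end Pool.Agent.Results.MP_2596c2_co.GapFree
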